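import Pool.Agent.H817R5.EP.Stubs

/-!
# Task VA of project EP (MP_1626ca_nt, helper817): the variance lemma, asymptotic form
-/

set_option autoImplicit false

open Finset

namespace Pool.Agent.H134R5.EP

open Pool.Agent.H817R5.EP

/-- powers of the logarithm are small -/
theorem va_log (C μ : ℝ) (hC : 0 < C) (hμ : 0 < μ) :
    ∃ X1 : ℕ, ∀ X : ℕ, X1 ≤ X → 1 ≤ X ∧
      10 * (C * (1 + Real.log X) ^ 4) ^ 3 + 8 ≤ (X : ℝ) ^ (μ / 2) := by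
  set ε : ℝ := μ / 48 with hε
  have hε0 : 0 < ε := by positivity
  set K : ℝ := (1 + 1 / ε) ^ 12 with hK
  have hK0 : 0 < K := by positivity
  have htend : Filter.Tendsto (fun X : ℕ => (X : ℝ) ^ (μ / 4)) Filter.atTop Filter.atTop :=
    (tendsto_rpow_atTop (by positivity)).comp tendsto_natCast_atTop_atTop
  obtain ⟨X1, hX1⟩ := Filter.eventually_atTop.1
    ((htend.eventually_ge_atTop (10 * C ^ 3 * K + 8)).and (Filter.eventually_ge_atTop 1))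
  refine ⟨X1, fun X hX => ⟨(hX1 X hX).2, ?_⟩⟩
  obtain ⟨h1, h2⟩ := hX1 X hX
  have hx : (1 : ℝ) ≤ X := by exact_mod_cast h2
  have hx0 : (0 : ℝ) < X := by linarith
  have hlog : Real.log X ≤ (X : ℝ) ^ ε / ε := Real.log_le_rpow_div hx0.le hε0
  have hlog0 : 0 ≤ Real.log X := Real.log_nonneg hx
  have hxe : 1 ≤ (X : ℝ) ^ ε := Real.one_le_rpow hx hε0.le
  have hL : 1 + Real.log X ≤ (1 + 1 / ε) * (X : ℝ) ^ ε := by
    have : (X : ℝ) ^ ε / ε = 1 / ε * (X : ℝ) ^ ε := by ring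
    linarith [this]
  have hL12 : (1 + Real.log X) ^ 12 ≤ K * (X : ℝ) ^ (μ / 4) := by
    have h3 : (1 + Real.log X) ^ 12 ≤ ((1 + 1 / ε) * (X : ℝ) ^ ε) ^ 12 :=
      pow_le_pow_left₀ (by linarith) hL 12
    have h4 : ((X : ℝ) ^ ε) ^ 12 = (X : ℝ) ^ (μ / 4) := by
      rw [← Real.rpow_natCast, ← Real.rpow_mul hx0.le]
      congr 1
      rw [hε]; push_cast; ring
    rw [mul_pow, h4] at h3
    exact h3
  have hx4 : 1 ≤ (X : ℝ) ^ (μ / 4) := Real.one_le_rpow hx (by positivity)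
  have h5 : (X : ℝ) ^ (μ / 2) = (X : ℝ) ^ (μ / 4) * (X : ℝ) ^ (μ / 4) := by
    rw [← Real.rpow_add hx0]
    congr 1; ring
  have h6 : 10 * (C * (1 + Real.log X) ^ 4) ^ 3 + 8 =
      10 * C ^ 3 * (1 + Real.log X) ^ 12 + 8 := by ring
  rw [h5, h6]
  have h7 : 10 * C ^ 3 * (1 + Real.log X) ^ 12 ≤ 10 * C ^ 3 * (K * (X : ℝ) ^ (μ / 4)) :=
    mul_le_mul_of_nonneg_left hL12 (by positivity)
  calc 10 * C ^ 3 * (1 + Real.log X) ^ 12 + 8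
      ≤ 10 * C ^ 3 * (K * (X : ℝ) ^ (μ / 4)) + 8 * (X : ℝ) ^ (μ / 4) := by linarith
    _ = (10 * C ^ 3 * K + 8) * (X : ℝ) ^ (μ / 4) := by ring
    _ ≤ _ := mul_le_mul_of_nonneg_right h1 (by linarith)

theorem va (hvl : St_VL) (hprod : St_PROD) : St_VA := by
  intro h1 h2 η hh2 hh12 hh1 hη
  obtain ⟨C, hC, hP⟩ := hprod
  set μ : ℝ := min (min (h1 / 6) (h1 - h2)) (min (h1 / 2) (2 * η)) with hμdef
  have hμ : 0 < μ := by
    rw [hμdef]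
    refine lt_min (lt_min ?_ ?_) (lt_min ?_ ?_) <;> linarith
  have hμ1 : μ ≤ h1 / 6 := (min_le_left _ _).trans (min_le_left _ _)
  have hμ2 : μ ≤ h1 - h2 := (min_le_left _ _).trans (min_le_right _ _)
  have hμ3 : μ ≤ h1 / 2 := (min_le_right _ _).trans (min_le_left _ _)
  have hμ4 : μ ≤ 2 * η := (min_le_right _ _).trans (min_le_right _ _)
  obtain ⟨X1, hX1⟩ := va_log C μ hC hμ
  refine ⟨μ / 4, by positivity, X1, ?_⟩
  intro X hX a P z H X0 D lam Y hadm hD hlam hz hH hsum hY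
  obtain ⟨hXn, hbig⟩ := hX1 X hX
  have hx : (1 : ℝ) ≤ X := by exact_mod_cast hXn
  have hx0 : (0 : ℝ) < X := by linarith
  have hxh1 : 1 ≤ (X : ℝ) ^ h1 := Real.one_le_rpow hx (by linarith)
  have hH0 : (0 : ℝ) < H := by linarith
  -- the choice of `G`
  set G : ℕ := ⌊(X : ℝ) ^ (h1 / 6)⌋₊ with hGdef
  have hxg : 1 ≤ (X : ℝ) ^ (h1 / 6) := Real.one_le_rpow hx (by linarith)
  have hG1 : 1 ≤ G := by
    rw [hGdef]; exact (Nat.one_le_floor_iff _).2 hxg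
  have hGR : (1 : ℝ) ≤ G := by exact_mod_cast hG1
  have hGle : (G : ℝ) ≤ (X : ℝ) ^ (h1 / 6) := Nat.floor_le (by linarith)
  have hGge : (X : ℝ) ^ (h1 / 6) ≤ 2 * G := by
    have := Nat.lt_floor_add_one ((X : ℝ) ^ (h1 / 6))
    rw [← hGdef] at this
    linarith
  have hneg : ∀ t : ℝ, μ ≤ t → (X : ℝ) ^ (-t) ≤ (X : ℝ) ^ (-μ) := fun t ht =>
    Real.rpow_le_rpow_of_exponent_le hx (by linarith)
  have hXμ0 : 0 < (X : ℝ) ^ (-μ) := Real.rpow_pos_of_pos hx0 _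
  -- the three terms
  have e1 : 3 * (H : ℝ) / G ≤ 6 * H * (X : ℝ) ^ (-μ) := by
    have h3 : (1 : ℝ) / G ≤ 2 * (X : ℝ) ^ (-(h1 / 6)) := by
      rw [Real.rpow_neg hx0.le, div_le_iff₀ (by linarith)]
      have h4 : 0 < (X : ℝ) ^ (h1 / 6) := by linarith
      rw [mul_assoc, ← div_eq_inv_mul, ← mul_div_assoc, le_div_iff₀ h4]
      linarith
    have h5 := hneg (h1 / 6) hμ1
    calc 3 * (H : ℝ) / G = 3 * H * (1 / G) := by ring
      _ ≤ 3 * H * (2 * (X : ℝ) ^ (-μ)) :=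
          mul_le_mul_of_nonneg_left (h3.trans (by linarith)) (by positivity)
      _ = _ := by ring
  have e2 : 2 * (z : ℝ) ≤ 2 * H * (X : ℝ) ^ (-μ) := by
    have h3 : (X : ℝ) ^ h2 = (X : ℝ) ^ h1 * (X : ℝ) ^ (-(h1 - h2)) := by
      rw [← Real.rpow_add hx0]; congr 1; ring
    have h5 := hneg (h1 - h2) hμ2
    have h6 : (X : ℝ) ^ h1 * (X : ℝ) ^ (-(h1 - h2)) ≤ H * (X : ℝ) ^ (-μ) :=
      mul_le_mul hH h5 (Real.rpow_pos_of_pos hx0 _).le hH0.le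
    rw [h3] at hz
    linarith
  have e3 : 2 * (G : ℝ) ^ 3 ≤ 2 * H * (X : ℝ) ^ (-μ) := by
    have h3 : (G : ℝ) ^ 3 ≤ ((X : ℝ) ^ (h1 / 6)) ^ 3 := pow_le_pow_left₀ (by linarith) hGle 3
    have h4 : ((X : ℝ) ^ (h1 / 6)) ^ 3 = (X : ℝ) ^ h1 * (X : ℝ) ^ (-(h1 / 2)) := by
      rw [← Real.rpow_natCast, ← Real.rpow_mul hx0.le, ← Real.rpow_add hx0]
      congr 1; push_cast; ring
    have h5 := hneg (h1 / 2) hμ3
    have h6 : (X : ℝ) ^ h1 * (X : ℝ) ^ (-(h1 / 2)) ≤ H * (X : ℝ) ^ (-μ) :=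
      mul_le_mul hH h5 (Real.rpow_pos_of_pos hx0 _).le hH0.le
    linarith
  -- the product
  have hzX : (z : ℝ) ≤ X := by
    refine hz.trans ?_
    calc (X : ℝ) ^ h2 ≤ (X : ℝ) ^ (1 : ℝ) := Real.rpow_le_rpow_of_exponent_le hx (by linarith)
      _ = X := Real.rpow_one _
  have hlogz : Real.log z ≤ Real.log X := by
    rcases Nat.eq_zero_or_pos z with h | h
    · subst h; simpa using Real.log_nonneg hx
    · exact Real.log_le_log (by exact_mod_cast h) hzX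
  have hlogz0 : 0 ≤ Real.log z := Real.log_natCast_nonneg z
  have hPr : ∏ q ∈ P, (1 + 4 / (q : ℝ)) ≤ C * (1 + Real.log X) ^ 4 :=
    (hP z P fun q hq => ⟨(hadm q hq).1, (hadm q hq).2.1⟩).trans
      (mul_le_mul_of_nonneg_left (pow_le_pow_left₀ (by linarith) (by linarith) 4) hC.le)
  have hPr0 : 0 ≤ ∏ q ∈ P, (1 + 4 / (q : ℝ)) := Finset.prod_nonneg fun q _ => by positivity
  have hPr3 : (∏ q ∈ P, (1 + 4 / (q : ℝ))) ^ 3 ≤ (C * (1 + Real.log X) ^ 4) ^ 3 :=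
    pow_le_pow_left₀ hPr0 hPr 3
  -- the sum
  have hS0 : 0 ≤ ∑ T ∈ D, ∏ q ∈ T, (a q : ℝ) :=
    Finset.sum_nonneg fun T _ => Finset.prod_nonneg fun q _ => by positivity
  have hS2 : (∑ T ∈ D, ∏ q ∈ T, (a q : ℝ)) ^ 2 ≤ X * (X : ℝ) ^ (-μ) := by
    have h3 := pow_le_pow_left₀ hS0 hsum 2
    have h4 : ((X : ℝ) ^ (1 / 2 - η)) ^ 2 = X * (X : ℝ) ^ (-(2 * η)) := by
      rw [← Real.rpow_natCast, ← Real.rpow_mul hx0.le]
      nth_rewrite 2 [← Real.rpow_one (X : ℝ)]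
      rw [← Real.rpow_add hx0]
      congr 1; push_cast; ring
    rw [h4] at h3
    exact h3.trans (mul_le_mul_of_nonneg_left (hneg _ hμ4) hx0.le)
  have hvl' := hvl a P z G H X0 X D lam hadm hD hG1 hlam
  set f : ℕ → ℝ := fun y => ∑ r ∈ range H, ∑ T ∈ D, lam T * (ind a T (y + r) - den a T) with hf
  change ∑ y ∈ Ico X0 (X0 + X), f y ^ 2 ≤ _ at hvl'
  change |∑ y ∈ Y, f y| ≤ _
  have hcs : (∑ y ∈ Y, f y) ^ 2 ≤ X * ∑ y ∈ Ico X0 (X0 + X), f y ^ 2 := by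
    have h3 := sq_sum_le_card_mul_sum_sq (s := Y) (f := f)
    have h4 : (Y.card : ℝ) ≤ X := by
      have := Finset.card_le_card hY
      rw [Nat.card_Ico] at this
      have h5 : Y.card ≤ X := by omega
      exact_mod_cast h5
    have h6 : ∑ y ∈ Y, f y ^ 2 ≤ ∑ y ∈ Ico X0 (X0 + X), f y ^ 2 :=
      Finset.sum_le_sum_of_subset_of_nonneg hY fun _ _ _ => sq_nonneg _
    exact h3.trans (mul_le_mul h4 h6 (Finset.sum_nonneg fun _ _ => sq_nonneg _) hx0.le)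
  have hmain : X * (∏ q ∈ P, (1 + 4 / (q : ℝ))) ^ 3 *
      (H * (3 * (H : ℝ) / G + 2 * z + 2 * (G : ℝ) ^ 3)) +
      8 * (H : ℝ) ^ 2 * (∑ T ∈ D, ∏ q ∈ T, (a q : ℝ)) ^ 2 ≤
      X * H ^ 2 * (X : ℝ) ^ (-μ) * (10 * (C * (1 + Real.log X) ^ 4) ^ 3 + 8) := by
    have t1 : (H : ℝ) * (3 * (H : ℝ) / G + 2 * z + 2 * (G : ℝ) ^ 3) ≤
        H * (10 * H * (X : ℝ) ^ (-μ)) :=
      mul_le_mul_of_nonneg_left (by linarith) hH0.le
    have t2 : X * (∏ q ∈ P, (1 + 4 / (q : ℝ))) ^ 3 *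
        (H * (3 * (H : ℝ) / G + 2 * z + 2 * (G : ℝ) ^ 3)) ≤
        X * (C * (1 + Real.log X) ^ 4) ^ 3 * (H * (10 * H * (X : ℝ) ^ (-μ))) := by
      have hlx := Real.log_nonneg hx
      refine mul_le_mul (mul_le_mul_of_nonneg_left hPr3 hx0.le) t1 (by positivity) (by positivity)
    have t3 : 8 * (H : ℝ) ^ 2 * (∑ T ∈ D, ∏ q ∈ T, (a q : ℝ)) ^ 2 ≤
        8 * (H : ℝ) ^ 2 * (X * (X : ℝ) ^ (-μ)) :=
      mul_le_mul_of_nonneg_left hS2 (by positivity)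
    calc _ ≤ X * (C * (1 + Real.log X) ^ 4) ^ 3 * (H * (10 * H * (X : ℝ) ^ (-μ))) +
        8 * (H : ℝ) ^ 2 * (X * (X : ℝ) ^ (-μ)) := add_le_add t2 t3
      _ = _ := by ring
  have hfin : (∑ y ∈ Y, f y) ^ 2 ≤ ((X : ℝ) ^ (1 - μ / 4) * H) ^ 2 := by
    have h3 : ((X : ℝ) ^ (1 - μ / 4) * H) ^ 2 =
        X * (X * H ^ 2 * (X : ℝ) ^ (-μ) * (X : ℝ) ^ (μ / 2)) := by
      have h4 : ((X : ℝ) ^ (1 - μ / 4)) ^ 2 = X * X * ((X : ℝ) ^ (-μ) * (X : ℝ) ^ (μ / 2)) := by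
        rw [← Real.rpow_natCast, ← Real.rpow_mul hx0.le, ← Real.rpow_add hx0]
        have h5 : (X : ℝ) * X = (X : ℝ) ^ (2 : ℝ) := by
          rw [Real.rpow_two]; ring
        rw [h5, ← Real.rpow_add hx0]
        congr 1; push_cast; ring
      rw [mul_pow, h4]; ring
    rw [h3]
    refine hcs.trans (mul_le_mul_of_nonneg_left (hvl'.trans (hmain.trans ?_)) hx0.le)
    exact mul_le_mul_of_nonneg_left hbig (by positivity)
  exact abs_le_of_sq_le_sq hfin (by positivity)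

end Pool.Agent.H134R5.EP
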